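import Pool.Agent.W845.TR.Base

set_option autoImplicit false
open scoped BigOperators
open MeasureTheory

/-!
Project TR (MP_985e29_pr): stationarity and variance bound (parts MEAN and LLN).
-/

namespace Pool.Agent.W38.TR

open Pool.Agent.W845.TR

variable {d : ℕ}

/-- locality -/
lemma und_local (r : ℕ) (x : S d) (A A' : Finset (S d))
    (h : ∀ y, l1 x y ≤ 2 * r + 1 → (y ∈ A ↔ y ∈ A')) : Und r x A ↔ Und r x A' := by
  have hO : ∀ y, l1 x y ≤ 2 * r + 1 →
      (y ∈ ((A.erase x : Finset (S d)) : Set (S d))ᶜ ↔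
        y ∈ ((A'.erase x : Finset (S d)) : Set (S d))ᶜ) := by
    intro y hy
    simp only [Set.mem_compl_iff, Finset.mem_coe, Finset.mem_erase]
    rw [h y hy]
  have h1 : W (((A.erase x : Finset (S d)) : Set (S d))ᶜ) r x {x} ↔
      W (((A'.erase x : Finset (S d)) : Set (S d))ᶜ) r x {x} :=
    W_local_iff (fun y hy => hO y (by linarith))
  have h2 : ∀ y, (Legal (((A.erase x : Finset (S d)) : Set (S d))ᶜ) x {x} y →
      W (((A.erase x : Finset (S d)) : Set (S d))ᶜ) r y {y, x}) ↔
      (Legal (((A'.erase x : Finset (S d)) : Set (S d))ᶜ) x {x} y →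
      W (((A'.erase x : Finset (S d)) : Set (S d))ᶜ) r y {y, x}) := by
    intro y
    by_cases hadj : adj x y
    · have hxy : l1 x y = 1 := hadj
      have hr : (0:ℤ) ≤ r := Int.natCast_nonneg r
      have hL : Legal (((A.erase x : Finset (S d)) : Set (S d))ᶜ) x {x} y ↔
          Legal (((A'.erase x : Finset (S d)) : Set (S d))ᶜ) x {x} y := by
        unfold Legal
        rw [hO y (by linarith)]
      have hW : W (((A.erase x : Finset (S d)) : Set (S d))ᶜ) r y {y, x} ↔
          W (((A'.erase x : Finset (S d)) : Set (S d))ᶜ) r y {y, x} :=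
        W_local_iff (fun z hz => hO z (by have := l1_tri x y z; linarith))
      rw [hL, hW]
    · constructor <;> intro _ hl <;> exact absurd hl.1 hadj
  unfold Und
  rw [h1]
  exact and_congr_right (fun _ => not_congr (forall_congr' h2))

/-- translation -/
lemma und_trans (a : S d) (r : ℕ) (x : S d) (A : Finset (S d)) :
    Und r (x + a) (A.image (fun y => y + a)) ↔ Und r x A := by
  classical
  have hO : ((((A.image (fun y => y + a)).erase (x + a) : Finset (S d)) : Set (S d))ᶜ) =
      {y | y - a ∈ ((A.erase x : Finset (S d)) : Set (S d))ᶜ} := by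
    ext y
    simp only [Set.mem_compl_iff, Finset.mem_coe, Finset.mem_erase, Finset.mem_image,
      Set.mem_setOf_eq]
    refine not_congr (and_congr ?_ ?_)
    · rw [ne_eq, ne_eq, sub_eq_iff_eq_add]
    · constructor
      · rintro ⟨z, hz, rfl⟩; simpa using hz
      · intro h; exact ⟨y - a, h, by simp⟩
  unfold Und
  rw [hO]
  have e1 : ({x + a} : Finset (S d)) = ({x} : Finset (S d)).image (fun y => y + a) := by simp
  have h1 : W {y | y - a ∈ ((A.erase x : Finset (S d)) : Set (S d))ᶜ} r (x + a) {x + a} ↔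
      W (((A.erase x : Finset (S d)) : Set (S d))ᶜ) r x {x} := by
    rw [e1]; exact W_trans a
  rw [h1]
  refine and_congr_right (fun _ => not_congr ?_)
  have hL : ∀ y, Legal {y | y - a ∈ ((A.erase x : Finset (S d)) : Set (S d))ᶜ} (x + a) {x + a}
      (y + a) ↔ Legal (((A.erase x : Finset (S d)) : Set (S d))ᶜ) x {x} y := by
    intro y
    unfold Legal
    have e2 : adj (x + a) (y + a) ↔ adj x y := by
      rw [adj_iff, adj_iff, l1_add]
    rw [e2]
    simp
  have hW : ∀ y, W {y | y - a ∈ ((A.erase x : Finset (S d)) : Set (S d))ᶜ} r (y + a)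
      {y + a, x + a} ↔ W (((A.erase x : Finset (S d)) : Set (S d))ᶜ) r y {y, x} := by
    intro y
    have e3 : ({y + a, x + a} : Finset (S d)) = ({y, x} : Finset (S d)).image (fun y => y + a) := by
      simp [Finset.image_insert]
    rw [e3]; exact W_trans a
  constructor
  · intro h y hy
    exact (hW y).1 (h (y + a) ((hL y).2 hy))
  · intro h y hy
    have e4 : y = (y - a) + a := by simp
    rw [e4] at hy ⊢
    exact (hW (y - a)).2 (h (y - a) ((hL (y - a)).1 hy))

theorem mean : St_MEAN := by
  classical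
  intro d r N p x hx
  have hD : ((box d N).filter (fun y => l1 x y ≤ 2 * r + 1)) =
      ((box d (2 * r + 2)).filter (fun y => l1 0 y ≤ 2 * r + 1)).image (fun y => y + x) := by
    ext y
    simp only [Finset.mem_filter, Finset.mem_image]
    constructor
    · rintro ⟨_, h2⟩
      refine ⟨y - x, ⟨?_, ?_⟩, by simp⟩
      · refine ball_box (M := 0) (r := 2 * r + 1) (by omega) (x := 0) ?_ ?_
        · rw [mem_box]; intro i; simp
        · have := l1_add 0 (y - x) x
          simp only [zero_add, sub_add_cancel] at this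
          rw [← this]; push_cast; exact h2
      · have := l1_add 0 (y - x) x
        simp only [zero_add, sub_add_cancel] at this
        rw [← this]; exact h2
    · rintro ⟨z, ⟨_, h2⟩, rfl⟩
      have := l1_add 0 z x
      rw [zero_add] at this
      have h3 : l1 x (z + x) ≤ 2 * r + 1 := by rw [this]; exact h2
      exact ⟨hx _ h3, h3⟩
  have e1 : Pr (fun _ => p) (box d N) (Und r x) =
      Pr (fun _ => p) ((box d N).filter (fun y => l1 x y ≤ 2 * r + 1)) (Und r x) := by
    refine Pr_marg _ _ _ (Finset.filter_subset _ _) _ (fun A _ => ?_)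
    refine und_local r x _ _ (fun y hy => ?_)
    rw [Finset.mem_inter, Finset.mem_filter]
    exact ⟨fun h => ⟨h, hx y hy, hy⟩, fun h => h.1⟩
  have e2 : mr d p r = Pr (fun _ => p) ((box d (2 * r + 2)).filter (fun y => l1 0 y ≤ 2 * r + 1))
      (Und r 0) := by
    unfold mr
    refine Pr_marg _ _ _ (Finset.filter_subset _ _) _ (fun A _ => ?_)
    refine und_local r 0 _ _ (fun y hy => ?_)
    rw [Finset.mem_inter, Finset.mem_filter]
    refine ⟨fun h => ⟨h, ?_, hy⟩, fun h => h.1⟩
    refine ball_box (M := 0) (r := 2 * r + 1) (by omega) (x := 0) ?_ ?_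
    · rw [mem_box]; intro i; simp
    · push_cast; exact hy
  rw [e1, e2, hD]
  unfold Pr
  rw [Ex_image p _ _ (add_left_injective x)]
  refine Ex_congr _ _ _ _ (fun A _ => ?_)
  have h3 : Und r x (A.image (fun y => y + x)) ↔ Und r 0 A := by
    have := und_trans x r 0 A
    rw [zero_add] at this
    exact this
  by_cases h : Und r 0 A
  · rw [if_pos h, if_pos (h3.2 h)]
  · rw [if_neg h, if_neg (fun h' => h (h3.1 h'))]

open Classical in
theorem lln : St_LLN := by
  intro d r L N p hp0 hp1 hLN
  have hq : ∀ x ∈ box d N, 0 ≤ (fun _ : S d => p) x ∧ (fun _ : S d => p) x ≤ 1 :=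
    fun _ _ => ⟨hp0, hp1⟩
  have hball : ∀ x ∈ box d L, ∀ y, l1 x y ≤ 2 * r + 1 → y ∈ box d N := by
    intro x hx y hy
    exact ball_box (M := L) (r := 2 * r + 1) (by omega) hx (by push_cast; exact hy)
  set m : ℝ := mr d p r with hm
  have hm0 : 0 ≤ m := Pr_nonneg _ _ _ (fun _ _ => ⟨hp0, hp1⟩)
  have hm1 : m ≤ 1 := Pr_le_one _ _ _ (fun _ _ => ⟨hp0, hp1⟩)
  let X : S d → Finset (S d) → ℝ := fun x A => (if Und r x A then (1 : ℝ) else 0) - m
  have hXabs : ∀ x A, |X x A| ≤ 1 := by
    intro x A
    show |(if Und r x A then (1 : ℝ) else 0) - m| ≤ 1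
    rw [abs_le]
    split_ifs <;> constructor <;> linarith
  have hXloc : ∀ x ∈ box d L, ∀ A : Finset (S d), A ⊆ box d N →
      X x A = X x (A ∩ (box d N).filter (fun y => l1 x y ≤ 2 * r + 1)) := by
    intro x hx A _
    have h := und_local r x A (A ∩ (box d N).filter (fun y => l1 x y ≤ 2 * r + 1)) (fun y hy => by
      rw [Finset.mem_inter, Finset.mem_filter]
      exact ⟨fun h => ⟨h, hball x hx y hy, hy⟩, fun h => h.1⟩)
    show (if Und r x A then (1 : ℝ) else 0) - m = (if Und r x _ then (1 : ℝ) else 0) - m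
    by_cases h1 : Und r x A
    · rw [if_pos h1, if_pos (h.1 h1)]
    · rw [if_neg h1, if_neg (fun h' => h1 (h.2 h'))]
  have hXmean : ∀ x ∈ box d L, Ex (fun _ => p) (box d N) (X x) = 0 := by
    intro x hx
    have h1 : Ex (fun _ => p) (box d N) (X x) =
        Ex (fun _ => p) (box d N) (fun A => if Und r x A then (1 : ℝ) else 0) -
          Ex (fun _ => p) (box d N) (fun _ => m) := Ex_sub _ _ _ _
    rw [h1, Ex_const]
    have h2 : Ex (fun _ => p) (box d N) (fun A => if Und r x A then (1 : ℝ) else 0) = m :=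
      mean d r N p x (hball x hx)
    rw [h2, sub_self]
  have hsq : ∀ A, ((∑ x ∈ box d L, if Und r x A then (1 : ℝ) else 0) - (box d L).card * m) ^ 2 =
      ∑ x ∈ box d L, ∑ y ∈ box d L, X x A * X y A := by
    intro A
    rw [← Finset.sum_mul_sum, ← pow_two]
    congr 1
    show _ = ∑ x ∈ box d L, ((if Und r x A then (1 : ℝ) else 0) - m)
    rw [Finset.sum_sub_distrib, Finset.sum_const, nsmul_eq_mul]
  simp only [hsq]
  rw [Ex_sum]
  have hterm : ∀ x ∈ box d L, Ex (fun _ => p) (box d N) (fun A => ∑ y ∈ box d L, X x A * X y A) ≤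
      (8 * (r : ℝ) + 9) ^ d := by
    intro x hx
    rw [Ex_sum]
    have h1 : ∀ y ∈ box d L, Ex (fun _ => p) (box d N) (fun A => X x A * X y A) ≤
        if ∀ i, |x i - y i| ≤ 4 * r + 2 then (1 : ℝ) else 0 := by
      intro y hy
      by_cases hc : ∀ i, |x i - y i| ≤ 4 * r + 2
      · rw [if_pos hc]
        calc Ex (fun _ => p) (box d N) (fun A => X x A * X y A)
            ≤ Ex (fun _ => p) (box d N) (fun _ => 1) := by
              refine Ex_mono _ _ _ _ hq (fun A _ => ?_)
              have h2 := abs_mul (X x A) (X y A)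
              have h3 : |X x A| * |X y A| ≤ 1 * 1 :=
                mul_le_mul (hXabs x A) (hXabs y A) (abs_nonneg _) zero_le_one
              have h4 := le_abs_self (X x A * X y A)
              linarith
          _ = 1 := Ex_const _ _ _
      · rw [if_neg hc]
        push_neg at hc
        obtain ⟨i, hi⟩ := hc
        have hl : (4 * (r : ℤ) + 2) < l1 x y := lt_of_lt_of_le hi (abs_le_l1 x y i)
        have hdis : Disjoint ((box d N).filter (fun z => l1 x z ≤ 2 * r + 1))
            ((box d N).filter (fun z => l1 y z ≤ 2 * r + 1)) := by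
          rw [Finset.disjoint_left]
          intro z hz1 hz2
          have h2 := (Finset.mem_filter.1 hz1).2
          have h3 := (Finset.mem_filter.1 hz2).2
          have h4 := l1_tri x z y
          rw [l1_comm z y] at h4
          linarith
        rw [Ex_indep (fun _ => p) _ _ (box d N) (Finset.filter_subset _ _)
          (Finset.filter_subset _ _) hdis (X x) (X y) (hXloc x hx) (hXloc y hy),
          hXmean x hx, zero_mul]
    refine (Finset.sum_le_sum h1).trans ?_
    rw [Finset.sum_ite, Finset.sum_const_zero, add_zero, Finset.sum_const, nsmul_eq_mul, mul_one]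
    have hsub : (box d L).filter (fun y => ∀ i, |x i - y i| ≤ 4 * r + 2) ⊆
        Finset.Icc (fun i => x i - (4 * (r : ℤ) + 2)) (fun i => x i + (4 * (r : ℤ) + 2)) := by
      intro y hy
      have h2 := (Finset.mem_filter.1 hy).2
      rw [Finset.mem_Icc]
      constructor
      · intro i
        have := abs_le.1 (h2 i)
        show x i - (4 * (r : ℤ) + 2) ≤ y i
        linarith
      · intro i
        have := abs_le.1 (h2 i)
        show y i ≤ x i + (4 * (r : ℤ) + 2)
        linarith
    have hcard : (Finset.Icc (fun i => x i - (4 * (r : ℤ) + 2))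
        (fun i => x i + (4 * (r : ℤ) + 2))).card = (8 * r + 5) ^ d := by
      rw [Pi.card_Icc]
      have : ∀ i : Fin d, (Finset.Icc (x i - (4 * (r : ℤ) + 2)) (x i + (4 * (r : ℤ) + 2))).card =
          8 * r + 5 := by
        intro i
        rw [Int.card_Icc]
        omega
      simp only [this]
      simp
    have h3 := Finset.card_le_card hsub
    rw [hcard] at h3
    have h4 : (((box d L).filter (fun y => ∀ i, |x i - y i| ≤ 4 * r + 2)).card : ℝ) ≤
        (((8 * r + 5) ^ d : ℕ) : ℝ) := by exact_mod_cast h3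
    refine h4.trans ?_
    push_cast
    exact pow_le_pow_left₀ (by positivity) (by linarith) d
  refine (Finset.sum_le_sum hterm).trans ?_
  rw [Finset.sum_const, nsmul_eq_mul]

end Pool.Agent.W38.TR
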